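import Pool.Agent.MP_670f9a_nt.H13.Spec2

/-!
The pointwise bound for a resultant.
-/

namespace Pool.Agent.MP_670f9a_nt.H59

open Polynomial Real Finset Pool.Agent.MP_670f9a_nt.NP
open scoped ComplexConjugate

theorem sq_id (x y : ℂ) :
    ‖1 - x * conj y‖ ^ 2 - ‖x - y‖ ^ 2 = (1 - ‖x‖ ^ 2) * (1 - ‖y‖ ^ 2) := by
  simp only [Complex.sq_norm, Complex.normSq_apply, Complex.sub_re, Complex.sub_im,
    Complex.mul_re, Complex.mul_im, Complex.one_re, Complex.one_im, Complex.conj_re,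
    Complex.conj_im]
  ring

theorem le_of_prod {x y : ℂ} (h : 0 ≤ (1 - ‖x‖ ^ 2) * (1 - ‖y‖ ^ 2)) :
    ‖x - y‖ ≤ ‖1 - x * conj y‖ := by
  have := sq_id x y
  exact abs_le_of_sq_le_sq' (by linarith) (norm_nonneg _) |>.2

theorem norm_sharp (b : ℂ) : ‖sharp b‖ ≤ 1 := by
  unfold sharp
  split_ifs with h
  · exact h
  · rw [norm_inv, Complex.norm_conj]
    exact inv_le_one_of_one_le₀ (le_of_lt (not_le.mp h))

theorem dist_le (x y : ℂ) :
    ‖x - y‖ ≤ max 1 ‖x‖ * max 1 ‖y‖ * ‖1 - sharp x * conj (sharp y)‖ := by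
  unfold sharp
  by_cases hx : ‖x‖ ≤ 1
  · by_cases hy : ‖y‖ ≤ 1
    · rw [if_pos hx, if_pos hy, max_eq_left hx, max_eq_left hy, one_mul, one_mul]
      refine le_of_prod (mul_nonneg ?_ ?_)
      · nlinarith [norm_nonneg x]
      · nlinarith [norm_nonneg y]
    · have hy1 : 1 < ‖y‖ := not_le.mp hy
      have hy0 : y ≠ 0 := by
        rintro rfl
        simp at hy
      rw [if_pos hx, if_neg hy, max_eq_left hx, max_eq_right hy1.le, one_mul, ← norm_mul,
        map_inv₀, Complex.conj_conj, norm_sub_rev]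
      have : y * (1 - x * y⁻¹) = y - x := by field_simp
      rw [this]
  · have hx1 : 1 < ‖x‖ := not_le.mp hx
    have hx0 : conj x ≠ 0 := by
      intro h
      have : x = 0 := by simpa using h
      rw [this] at hx
      simp at hx
    by_cases hy : ‖y‖ ≤ 1
    · rw [if_neg hx, if_pos hy, max_eq_right hx1.le, max_eq_left hy, mul_one,
        ← Complex.norm_conj x, ← norm_mul, ← Complex.norm_conj (x - y), map_sub]
      have : conj x * (1 - (conj x)⁻¹ * conj y) = conj x - conj y := by field_simp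
      rw [this]
    · have hy1 : 1 < ‖y‖ := not_le.mp hy
      have hy0 : y ≠ 0 := by
        rintro rfl
        simp at hy
      rw [if_neg hx, if_neg hy, max_eq_right hx1.le, max_eq_right hy1.le, map_inv₀,
        Complex.conj_conj, ← Complex.norm_conj x, ← norm_mul, ← norm_mul]
      have : conj x * y * (1 - (conj x)⁻¹ * y⁻¹) = -(1 - y * conj x) := by
        field_simp
        ring
      rw [this, norm_neg, norm_sub_rev x y]
      refine le_of_prod (mul_nonneg_of_nonpos_of_nonpos ?_ ?_)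
      · nlinarith
      · nlinarith

theorem shrink {ρ : ℝ} {t : ℂ} (h0 : 0 < ρ) (h1 : ρ < 1) (ht : ‖t‖ ≤ 1) :
    (1 + ρ) * ‖1 - t‖ ≤ 2 * ‖1 - ρ * t‖ := by
  have e : (2 * ‖1 - ρ * t‖) ^ 2 - ((1 + ρ) * ‖1 - t‖) ^ 2 =
      (1 - ρ) ^ 2 * ‖1 + t‖ ^ 2 + 2 * (1 - ρ ^ 2) * (1 - ‖t‖ ^ 2) := by
    simp only [mul_pow, Complex.sq_norm, Complex.normSq_apply, Complex.sub_re, Complex.sub_im,
      Complex.add_re, Complex.add_im, Complex.mul_re, Complex.mul_im, Complex.one_re,
      Complex.one_im, Complex.ofReal_re, Complex.ofReal_im]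
    ring
  have a1 : 0 ≤ (1 - ρ) ^ 2 * ‖1 + t‖ ^ 2 := by positivity
  have a2 : 0 ≤ 2 * (1 - ρ ^ 2) * (1 - ‖t‖ ^ 2) :=
    mul_nonneg (by nlinarith) (by nlinarith [norm_nonneg t])
  exact abs_le_of_sq_le_sq' (by linarith) (by positivity) |>.2

theorem pair (h : SKern) {ρ : ℝ} (h0 : 0 < ρ) (h1 : ρ < 1) (N : ℕ) {x y : ℂ} (hxy : x ≠ y) :
    log ‖x - y‖ ≤ log⁺ ‖x‖ + log⁺ ‖y‖ + (log (2 / (1 + ρ)) + ρ ^ N / (1 - ρ)) -
      ∑ r ∈ Icc 1 N, ρ ^ r / r * (sharp x ^ r * conj (sharp y ^ r)).re := by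
  set t := sharp x * conj (sharp y) with ht
  have ht1 : ‖t‖ ≤ 1 := by
    rw [ht, norm_mul, Complex.norm_conj]
    exact mul_le_one₀ (norm_sharp x) (norm_nonneg _) (norm_sharp y)
  have hpos : 0 < ‖x - y‖ := norm_pos_iff.mpr (sub_ne_zero.mpr hxy)
  have hd := dist_le x y
  rw [← ht] at hd
  have mx : 0 < max 1 ‖x‖ := lt_of_lt_of_le one_pos (le_max_left _ _)
  have my : 0 < max 1 ‖y‖ := lt_of_lt_of_le one_pos (le_max_left _ _)
  have hT : 0 < ‖1 - t‖ := by
    rcases (norm_nonneg (1 - t)).lt_or_eq with h' | h'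
    · exact h'
    · rw [← h', mul_zero] at hd
      linarith
  have hs := shrink h0 h1 ht1
  have hρ : 0 < 1 + ρ := by linarith
  have hU : 0 < ‖1 - ρ * t‖ := by
    have : 0 < (1 + ρ) * ‖1 - t‖ := mul_pos hρ hT
    linarith
  have l1 : log ‖x - y‖ ≤ log⁺ ‖x‖ + log⁺ ‖y‖ + log ‖1 - t‖ := by
    rw [posLog_eq_log_max_one (norm_nonneg x), posLog_eq_log_max_one (norm_nonneg y),
      ← log_mul mx.ne' my.ne', ← log_mul (mul_pos mx my).ne' hT.ne']
    exact log_le_log hpos hd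
  have l2 : log ‖1 - t‖ ≤ log (2 / (1 + ρ)) + log ‖1 - ρ * t‖ := by
    rw [← log_mul (div_pos two_pos hρ).ne' hU.ne']
    refine log_le_log hT ?_
    rw [div_mul_eq_mul_div, le_div_iff₀ hρ]
    linarith
  have l3 := (abs_le.mp (h.2.2.2.2 ρ t N h0.le h1 ht1).1).2
  have e : ∑ r ∈ Icc 1 N, ρ ^ r / r * (sharp x ^ r * conj (sharp y ^ r)).re =
      ∑ r ∈ Icc 1 N, ρ ^ r / r * (t ^ r).re := by
    refine Finset.sum_congr rfl fun r _ => ?_
    rw [ht, mul_pow, map_pow]
  rw [e]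
  linarith

theorem inner (h : SKern) {ρ : ℝ} (h0 : 0 < ρ) (h1 : ρ < 1) (N : ℕ) (x : ℂ) (t : Multiset ℂ)
    (hx : ∀ y ∈ t, x ≠ y) :
    (t.map fun y => log ‖x - y‖).sum ≤ t.card * log⁺ ‖x‖ + (t.map fun y => log⁺ ‖y‖).sum +
      t.card * (log (2 / (1 + ρ)) + ρ ^ N / (1 - ρ)) -
      ∑ r ∈ Icc 1 N, ρ ^ r / r * (sharp x ^ r * conj (t.map fun b => sharp b ^ r).sum).re := by
  induction t using Multiset.induction_on with
  | empty => simp
  | cons y t ih =>
    have a := pair h h0 h1 N (hx y (Multiset.mem_cons_self y t))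
    have b := ih fun z hz => hx z (Multiset.mem_cons_of_mem hz)
    simp only [Multiset.map_cons, Multiset.sum_cons, Multiset.card_cons, Nat.cast_add,
      Nat.cast_one, map_add, mul_add (sharp x ^ _), Complex.add_re, mul_add (ρ ^ _ / _),
      Finset.sum_add_distrib]
    linarith

theorem outer (h : SKern) {ρ : ℝ} (h0 : 0 < ρ) (h1 : ρ < 1) (N : ℕ) (s t : Multiset ℂ)
    (hx : ∀ x ∈ s, ∀ y ∈ t, x ≠ y) :
    (s.map fun x => (t.map fun y => log ‖x - y‖).sum).sum ≤
      t.card * (s.map fun x => log⁺ ‖x‖).sum + s.card * (t.map fun y => log⁺ ‖y‖).sum +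
      s.card * (t.card * (log (2 / (1 + ρ)) + ρ ^ N / (1 - ρ))) -
      ∑ r ∈ Icc 1 N, ρ ^ r / r *
        ((s.map fun b => sharp b ^ r).sum * conj (t.map fun b => sharp b ^ r).sum).re := by
  induction s using Multiset.induction_on with
  | empty => simp
  | cons x s ih =>
    have a := inner h h0 h1 N x t (hx x (Multiset.mem_cons_self x s))
    have b := ih fun z hz => hx z (Multiset.mem_cons_of_mem hz)
    simp only [Multiset.map_cons, Multiset.sum_cons, Multiset.card_cons, Nat.cast_add,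
      Nat.cast_one, add_mul (sharp x ^ _), Complex.add_re, mul_add (ρ ^ _ / _),
      Finset.sum_add_distrib]
    linarith

theorem log_norm_prod (s : Multiset ℂ) (f : ℂ → ℂ) (hs : ∀ x ∈ s, f x ≠ 0) :
    log ‖(s.map f).prod‖ = (s.map fun x => log ‖f x‖).sum := by
  induction s using Multiset.induction_on with
  | empty => simp
  | cons x s ih =>
    have hx := hs x (Multiset.mem_cons_self x s)
    have hs' : ∀ z ∈ s, f z ≠ 0 := fun z hz => hs z (Multiset.mem_cons_of_mem hz)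
    have hp : (s.map f).prod ≠ 0 := by
      refine Multiset.prod_ne_zero fun h0 => ?_
      obtain ⟨z, hz, hz0⟩ := Multiset.mem_map.mp h0
      exact hs' z hz hz0
    rw [Multiset.map_cons, Multiset.prod_cons, norm_mul,
      log_mul (norm_ne_zero_iff.mpr hx) (norm_ne_zero_iff.mpr hp), ih hs', Multiset.map_cons,
      Multiset.sum_cons]

theorem sPt (h : SKern) : SPt := by
  intro p q d N ρ hp hq hpd hqd hR h0 h1
  have sp := IsAlgClosed.splits p
  have sq := IsAlgClosed.splits q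
  have cp : p.roots.card = d := by rw [← hpd, sp.natDegree_eq_card_roots]
  have cq : q.roots.card = d := by rw [← hqd, sq.natDegree_eq_card_roots]
  have e : resultant p q d d = p.leadingCoeff ^ d * (p.roots.map q.eval).prod := by
    have := resultant_eq_prod_eval p q d hqd.le sp
    rwa [hpd] at this
  have ha : p.leadingCoeff ≠ 0 := leadingCoeff_ne_zero.mpr hp
  have hb : q.leadingCoeff ≠ 0 := leadingCoeff_ne_zero.mpr hq
  have hP : (p.roots.map q.eval).prod ≠ 0 := by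
    intro h'
    rw [e, h', mul_zero] at hR
    exact hR rfl
  have hev : ∀ x ∈ p.roots, q.eval x ≠ 0 := fun x hx h' =>
    hP (Multiset.prod_eq_zero (Multiset.mem_map.mpr ⟨x, hx, h'⟩))
  have hne : ∀ x ∈ p.roots, ∀ y ∈ q.roots, x ≠ y := by
    intro x hx y hy hxy
    rw [← hxy] at hy
    exact hev x hx (isRoot_of_mem_roots hy)
  have hlog : ∀ x ∈ p.roots, log ‖q.eval x‖ =
      log ‖q.leadingCoeff‖ + (q.roots.map fun y => log ‖x - y‖).sum := by
    intro x hx
    have hp' : (q.roots.map fun y => x - y).prod ≠ 0 := by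
      refine Multiset.prod_ne_zero fun h0 => ?_
      obtain ⟨z, hz, hz0⟩ := Multiset.mem_map.mp h0
      exact hne x hx z hz (sub_eq_zero.mp hz0)
    rw [sq.eval_eq_prod_roots x, norm_mul,
      log_mul (norm_ne_zero_iff.mpr hb) (norm_ne_zero_iff.mpr hp'),
      log_norm_prod _ _ fun y hy => sub_ne_zero.mpr (hne x hx y hy)]
  have hsum : (p.roots.map fun x => log ‖q.eval x‖).sum = d * log ‖q.leadingCoeff‖ +
      (p.roots.map fun x => (q.roots.map fun y => log ‖x - y‖).sum).sum := by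
    rw [Multiset.map_congr rfl hlog, Multiset.sum_map_add, Multiset.map_const',
      Multiset.sum_replicate, cp, nsmul_eq_mul]
  have ho := outer h h0 h1 N p.roots q.roots hne
  rw [cp, cq] at ho
  rw [e, norm_mul, log_mul (norm_ne_zero_iff.mpr (pow_ne_zero _ ha)) (norm_ne_zero_iff.mpr hP),
    norm_pow, log_pow, log_norm_prod _ _ hev, hsum,
    logMahlerMeasure_eq_log_leadingCoeff_add_sum_log_roots,
    logMahlerMeasure_eq_log_leadingCoeff_add_sum_log_roots]
  unfold ps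
  linarith

end Pool.Agent.MP_670f9a_nt.H59
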